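import Mathlib
import Pool.Agent.Helper51.LT.St
import Pool.Agent.Helper60.Rel.Area

/-!
# Project LT (MP_d6acc2_an), module HALF

The integral means of the derivative of bounded univalent functions grow at most like
`(1-r)^(-1/2)`.
-/

set_option autoImplicit false

namespace Pool.Agent.Helper13.LT

open Complex MeasureTheory Set Metric Filter Topology
open scoped Real ENNReal
open Pool.Agent.Helper60.Rel (LH)
open Pool.Agent.Helper51.LT

theorem nsub (r ρ : ℝ) (hr : 0 ≤ r) (h : r < ρ) (s t : ℝ) :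
    0 < ‖circleMap 0 ρ s - circleMap 0 r t‖ := by
  have h1 : ‖circleMap 0 ρ s‖ = ρ := by
    rw [norm_circleMap_zero, abs_of_nonneg (hr.trans h.le)]
  have h2 : ‖circleMap 0 r t‖ = r := by
    rw [norm_circleMap_zero, abs_of_nonneg hr]
  have h3 := norm_sub_norm_le (circleMap 0 ρ s) (circleMap 0 r t)
  rw [h1, h2] at h3
  linarith

theorem nsymm (r ρ : ℝ) (s t : ℝ) :
    ‖circleMap 0 ρ s - circleMap 0 r t‖ = ‖circleMap 0 ρ t - circleMap 0 r s‖ := by
  have h : ∀ a b : ℝ, ‖circleMap 0 ρ a - circleMap 0 r b‖ ^ 2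
      = ρ ^ 2 + r ^ 2 - 2 * ρ * r * Real.cos (a - b) := by
    intro a b
    rw [← Complex.normSq_eq_norm_sq, Complex.normSq_apply, Real.cos_sub]
    simp only [circleMap, zero_add, sub_re, sub_im, mul_re, mul_im, ofReal_re, ofReal_im,
      exp_ofReal_mul_I_re, exp_ofReal_mul_I_im]
    nlinarith [Real.sin_sq_add_cos_sq a, Real.sin_sq_add_cos_sq b]
  have h1 := h s t
  have h2 := h t s
  rw [show t - s = -(s - t) by ring, Real.cos_neg] at h2
  exact (sq_eq_sq₀ (norm_nonneg _) (norm_nonneg _)).1 (h1.trans h2.symm)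

/-- The integral means of an analytic function increase. -/
theorem means_mono {F : ℂ → ℂ} (hF : DifferentiableOn ℂ F (ball 0 1)) {r ρ : ℝ} (hr : 0 ≤ r)
    (h : r < ρ) (hρ : ρ < 1) :
    ∫ t in (0 : ℝ)..(2 * π), ‖F (circleMap 0 r t)‖
      ≤ ∫ t in (0 : ℝ)..(2 * π), ‖F (circleMap 0 ρ t)‖ := by
  have hpi : (0 : ℝ) ≤ 2 * π := by positivity
  have hpi' : (0 : ℝ) < 2 * π := by positivity
  have hρ0 : 0 < ρ := lt_of_le_of_lt hr h
  set P : ℝ → ℝ → ℝ := fun s t =>
    (ρ ^ 2 - r ^ 2) / ‖circleMap 0 ρ s - circleMap 0 r t‖ ^ 2 with hP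
  have hnum : 0 ≤ ρ ^ 2 - r ^ 2 := by nlinarith
  have hP0 : ∀ s t, 0 ≤ P s t := fun s t => by positivity
  have hPc : Continuous (fun x : ℝ × ℝ => P x.2 x.1) := by
    apply Continuous.div continuous_const
    · have h1 : Continuous (fun x : ℝ × ℝ => circleMap 0 ρ x.2) :=
        (continuous_circleMap 0 ρ).comp continuous_snd
      have h2 : Continuous (fun x : ℝ × ℝ => circleMap 0 r x.1) :=
        (continuous_circleMap 0 r).comp continuous_fst
      exact (h1.sub h2).norm.pow 2
    · intro x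
      exact pow_ne_zero 2 (nsub r ρ hr h x.2 x.1).ne'
  have hsub : closedBall (0 : ℂ) ρ ⊆ ball 0 1 := closedBall_subset_ball hρ
  have hFd : DiffContOnCl ℂ F (ball 0 ρ) := by
    apply DifferentiableOn.diffContOnCl
    rw [closure_ball _ hρ0.ne']
    exact hF.mono hsub
  have hmem : ∀ t, circleMap 0 r t ∈ ball (0 : ℂ) ρ := by
    intro t
    rw [mem_ball_zero_iff, norm_circleMap_zero, abs_of_nonneg hr]
    exact h
  have hnr : ∀ t, ‖circleMap 0 r t‖ = r := fun t => by
    rw [norm_circleMap_zero, abs_of_nonneg hr]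
  have hnρ : ∀ t, ‖circleMap 0 ρ t‖ = ρ := fun t => by
    rw [norm_circleMap_zero, abs_of_nonneg hρ0.le]
  have hmemρ : ∀ t, circleMap 0 ρ t ∈ ball (0 : ℂ) 1 := by
    intro t
    rw [mem_ball_zero_iff, hnρ]
    exact hρ
  have hmemr : ∀ t, circleMap 0 r t ∈ ball (0 : ℂ) 1 := by
    intro t
    rw [mem_ball_zero_iff, hnr]
    exact h.trans hρ
  have hFc : Continuous (fun s => ‖F (circleMap 0 ρ s)‖) := by
    have := hF.continuousOn.comp_continuous (continuous_circleMap 0 ρ) hmemρ
    exact this.norm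
  have hFr : Continuous (fun s => ‖F (circleMap 0 r s)‖) := by
    have := hF.continuousOn.comp_continuous (continuous_circleMap 0 r) hmemr
    exact this.norm
  have h1 : ∀ t, ‖F (circleMap 0 r t)‖
      ≤ (2 * π)⁻¹ * ∫ s in (0 : ℝ)..(2 * π), P s t * ‖F (circleMap 0 ρ s)‖ := by
    intro t
    have h2 := hFd.circleAverage_poissonKernel_smul' (hmem t)
    rw [← h2, Real.circleAverage_def, norm_smul, Real.norm_eq_abs, abs_of_pos (by positivity)]
    apply mul_le_mul_of_nonneg_left _ (by positivity)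
    refine (intervalIntegral.norm_integral_le_integral_norm hpi).trans (le_of_eq ?_)
    apply intervalIntegral.integral_congr
    intro s _
    simp only [sub_zero, norm_smul, hnr, hnρ, Real.norm_eq_abs]
    rw [abs_of_nonneg (hP0 s t)]
  have h3 : ∀ s, ∫ t in (0 : ℝ)..(2 * π), P s t = 2 * π := by
    intro s
    have hone : DiffContOnCl ℂ (fun _ : ℂ => (1 : ℂ)) (ball 0 ρ) := diffContOnCl_const
    have h4 := hone.circleAverage_poissonKernel_smul' (hmem s)
    rw [Real.circleAverage_def] at h4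
    have h5 : (∫ t in (0 : ℝ)..(2 * π), ((‖circleMap 0 ρ t - 0‖ ^ 2 - ‖circleMap 0 r s - 0‖ ^ 2) /
        ‖(circleMap 0 ρ t - 0) - (circleMap 0 r s - 0)‖ ^ 2) • (1 : ℂ))
        = ((∫ t in (0 : ℝ)..(2 * π), P s t : ℝ) : ℂ) := by
      rw [← intervalIntegral.integral_ofReal]
      apply intervalIntegral.integral_congr
      intro t _
      simp only [sub_zero, hnr, hnρ, hP]
      rw [nsymm r ρ s t]
      simp
    rw [h5] at h4
    have h6 : (2 * π)⁻¹ * ∫ t in (0 : ℝ)..(2 * π), P s t = 1 := by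
      have := congrArg Complex.re h4
      simpa using this
    field_simp at h6
    linarith
  have hFc2 : Continuous (fun x : ℝ × ℝ => ‖F (circleMap 0 ρ x.2)‖) := hFc.comp continuous_snd
  have hint : Continuous (fun x : ℝ × ℝ => P x.2 x.1 * ‖F (circleMap 0 ρ x.2)‖) := hPc.mul hFc2
  obtain ⟨Q, hQ⟩ : ∃ Q : ℝ → ℝ → ℝ, Q = fun t s => P s t * ‖F (circleMap 0 ρ s)‖ := ⟨_, rfl⟩
  have hQ' : ∀ t s, P s t * ‖F (circleMap 0 ρ s)‖ = Q t s := fun t s => by rw [hQ]
  have hQc : Continuous (Function.uncurry Q) := by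
    rw [hQ]; exact hint
  simp only [hQ'] at h1
  calc ∫ t in (0 : ℝ)..(2 * π), ‖F (circleMap 0 r t)‖
      ≤ ∫ t in (0 : ℝ)..(2 * π), (2 * π)⁻¹ * ∫ s in (0 : ℝ)..(2 * π), Q t s := by
        apply intervalIntegral.integral_mono_on hpi (hFr.intervalIntegrable _ _)
        · apply Continuous.intervalIntegrable
          apply Continuous.mul continuous_const
          exact intervalIntegral.continuous_parametric_intervalIntegral_of_continuous' hQc _ _
        · intro t _
          exact h1 t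
    _ = (2 * π)⁻¹ * ∫ t in (0 : ℝ)..(2 * π), ∫ s in (0 : ℝ)..(2 * π), Q t s := by
        rw [intervalIntegral.integral_const_mul]
    _ = (2 * π)⁻¹ * ∫ s in (0 : ℝ)..(2 * π), ∫ t in (0 : ℝ)..(2 * π), Q t s := by
        congr 1
        apply intervalIntegral_intervalIntegral_swap
        apply IntegrableOn.mono_set (t := Icc 0 (2 * π) ×ˢ Icc 0 (2 * π))
        · exact hQc.continuousOn.integrableOn_compact (isCompact_Icc.prod isCompact_Icc)
        · rw [uIoc_of_le hpi]
          exact prod_mono Ioc_subset_Icc_self Ioc_subset_Icc_self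
    _ = (2 * π)⁻¹ * ∫ s in (0 : ℝ)..(2 * π), 2 * π * ‖F (circleMap 0 ρ s)‖ := by
        congr 1
        apply intervalIntegral.integral_congr
        intro s _
        simp only [hQ]
        rw [intervalIntegral.integral_mul_const, h3]
    _ = ∫ t in (0 : ℝ)..(2 * π), ‖F (circleMap 0 ρ t)‖ := by
        rw [intervalIntegral.integral_const_mul, ← mul_assoc, inv_mul_cancel₀ hpi'.ne', one_mul]

/-- The area of the image of the punctured disc. -/
theorem area_le {g : ℂ → ℂ} (hg : BU g) :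
    ∫⁻ ζ in {ζ : ℂ | ζ.re < 0 ∧ 0 ≤ ζ.im ∧ ζ.im < 2 * π},
      ENNReal.ofReal (‖deriv g (exp ζ) * exp ζ‖ ^ 2) ≤ ENNReal.ofReal π := by
  set S : Set ℂ := {ζ : ℂ | ζ.re < 0 ∧ 0 ≤ ζ.im ∧ ζ.im < 2 * π} with hS
  have hSm : MeasurableSet S := by
    apply MeasurableSet.inter
    · exact measurableSet_lt measurable_re measurable_const
    · apply MeasurableSet.inter
      · exact measurableSet_le measurable_const measurable_im
      · exact measurableSet_lt measurable_im measurable_const
  have hmem : ∀ ζ ∈ S, exp ζ ∈ ball (0 : ℂ) 1 := fun ζ hζ =>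
    Pool.Agent.Helper60.Rel.exp_mem_ball hζ.1
  have hder : ∀ ζ ∈ S, HasFDerivWithinAt (fun ζ => g (exp ζ))
      ((ContinuousLinearMap.toSpanSingleton ℂ (deriv g (exp ζ) * exp ζ)).restrictScalars ℝ :
        ℂ →L[ℝ] ℂ) S ζ := by
    intro ζ hζ
    have h1 : HasDerivAt g (deriv g (exp ζ)) (exp ζ) :=
      (hg.1.1.differentiableAt (isOpen_ball.mem_nhds (hmem ζ hζ))).hasDerivAt
    have h3 : HasDerivAt (fun ζ => g (exp ζ)) (deriv g (exp ζ) * exp ζ) ζ :=
      h1.comp ζ (Complex.hasDerivAt_exp ζ)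
    exact (h3.hasFDerivAt.restrictScalars ℝ).hasFDerivWithinAt
  have hinj : InjOn (fun ζ => g (exp ζ)) S := by
    intro ζ hζ ζ' hζ' he
    have h1 := hg.1.2 (hmem ζ hζ) (hmem ζ' hζ') he
    obtain ⟨n, hn⟩ := Complex.exp_eq_exp_iff_exists_int.1 h1
    have him := congrArg Complex.im hn
    have him2 : ζ.im = ζ'.im + n * (2 * π) := by
      rw [him]; simp
    have hn0 : n = 0 := by
      have hpi := Real.pi_pos
      obtain ⟨_, a1, a2⟩ := hζ
      obtain ⟨_, b1, b2⟩ := hζ'
      have c1 : (n : ℝ) * (2 * π) < 1 * (2 * π) := by linarith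
      have c2 : (-1 : ℝ) * (2 * π) < (n : ℝ) * (2 * π) := by linarith
      have d1 : (n : ℝ) < 1 := lt_of_mul_lt_mul_right c1 (by positivity)
      have d2 : (-1 : ℝ) < n := lt_of_mul_lt_mul_right c2 (by positivity)
      have e1 : n < 1 := by exact_mod_cast d1
      have e2 : -1 < n := by exact_mod_cast d2
      omega
    rw [hn, hn0]; simp
  have key := lintegral_image_eq_lintegral_abs_det_fderiv_mul volume hSm hder hinj
    (fun _ => (1 : ℝ≥0∞))
  have hcong : ∫⁻ ζ in S, ENNReal.ofReal (‖deriv g (exp ζ) * exp ζ‖ ^ 2)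
      = ∫⁻ ζ in S, ENNReal.ofReal |((ContinuousLinearMap.toSpanSingleton ℂ
          (deriv g (exp ζ) * exp ζ)).restrictScalars ℝ : ℂ →L[ℝ] ℂ).det| * 1 := by
    apply setLIntegral_congr_fun hSm
    intro ζ _
    simp only
    rw [Pool.Agent.Helper60.Rel.det_mul_complex, abs_of_nonneg (by positivity), mul_one]
  rw [hcong, ← key, setLIntegral_one]
  have hsub : (fun ζ => g (exp ζ)) '' S ⊆ closedBall (0 : ℂ) 1 := by
    rintro _ ⟨ζ, hζ, rfl⟩
    rw [mem_closedBall_zero_iff]
    exact hg.2 _ (hmem ζ hζ)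
  refine (measure_mono hsub).trans (le_of_eq ?_)
  rw [Complex.volume_closedBall]
  simp only [ENNReal.ofReal_one, one_pow, one_mul]
  rw [← NNReal.coe_real_pi, ENNReal.ofReal_coe_nnreal]

theorem half_aux {g : ℂ → ℂ} (hg : BU g) {r : ℝ} (hr : 0 < r) (hr1 : r < 1) :
    (r * IM g r) ^ 2 * (1 - r) ≤ (2 * π) ^ 2 := by
  have hpi : (0 : ℝ) ≤ 2 * π := by positivity
  have hpi' : (0 : ℝ) < 2 * π := by positivity
  set a : ℝ := Real.log r with ha
  have ha0 : a < 0 := Real.log_neg hr hr1
  have hF' : DifferentiableOn ℂ (deriv g) (ball 0 1) := hg.1.1.deriv isOpen_ball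
  set u : ℂ → ℝ := fun ζ => ‖deriv g (exp ζ) * exp ζ‖ with hu
  have huc : ContinuousOn u LH := by
    have h1 : ContinuousOn (fun ζ : ℂ => deriv g (exp ζ)) LH :=
      hF'.continuousOn.comp Complex.continuous_exp.continuousOn
        (fun ζ hζ => Pool.Agent.Helper60.Rel.exp_mem_ball hζ)
    exact (h1.mul Complex.continuous_exp.continuousOn).norm
  have hrect := Pool.Agent.Helper60.Rel.rect_integral_le (F := fun ζ => u ζ ^ 2) (huc.pow 2)
    (fun ζ => by positivity) (a := a) (b := a / 2) (by linarith) (by linarith)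
  have hA : (∫ x in a..(a / 2), ∫ y in (0 : ℝ)..(2 * π), u (x + y * I) ^ 2) ≤ π := by
    have := hrect.trans (area_le hg)
    exact (ENNReal.ofReal_le_ofReal_iff Real.pi_pos.le).1 this
  -- the mean on the line `Re = x`
  have hphi : ∀ x : ℝ, x < 0 → ∫ y in (0 : ℝ)..(2 * π), u (x + y * I)
      = Real.exp x * IM g (Real.exp x) := by
    intro x _
    rw [IM, ← intervalIntegral.integral_const_mul]
    apply intervalIntegral.integral_congr
    intro y _
    simp only [hu]
    have h1 : exp ((x : ℂ) + y * I) = circleMap 0 (Real.exp x) y := by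
      rw [circleMap, zero_add, Complex.exp_add, Complex.ofReal_exp]
    rw [h1, norm_mul, norm_circleMap_zero, abs_of_pos (Real.exp_pos x), mul_comm]
  have hra : Real.exp a = r := Real.exp_log hr
  have hIM0 : ∀ s, 0 ≤ IM g s := fun s =>
    intervalIntegral.integral_nonneg hpi (fun t _ => norm_nonneg _)
  set Φ : ℝ := r * IM g r with hΦ
  have hΦ0 : 0 ≤ Φ := mul_nonneg hr.le (hIM0 r)
  have hmono : ∀ x : ℝ, a ≤ x → x < 0 → Φ ≤ ∫ y in (0 : ℝ)..(2 * π), u (x + y * I) := by
    intro x hx hx0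
    rw [hphi x hx0]
    rcases eq_or_lt_of_le hx with h | h
    · rw [← h, hra]
    · have h1 : r < Real.exp x := by
        rw [← hra]; exact Real.exp_lt_exp.2 h
      have h2 : Real.exp x < 1 := Real.exp_lt_one_iff.2 hx0
      have h3 : IM g r ≤ IM g (Real.exp x) := means_mono hF' hr.le h1 h2
      exact mul_le_mul h1.le h3 (hIM0 r) (Real.exp_pos x).le
  -- lower bound for the inner integral
  set m : ℝ := Φ / (2 * π) with hm
  have hm0 : 0 ≤ m := by positivity
  have hline : ∀ x : ℝ, x < 0 → Continuous (fun y : ℝ => u (x + y * I)) := by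
    intro x hx
    apply huc.comp_continuous (by fun_prop)
    intro y
    show ((x : ℂ) + y * I).re < 0
    simpa using hx
  have hlow : ∀ x : ℝ, a ≤ x → x < 0 →
      Φ ^ 2 / (2 * π) ≤ ∫ y in (0 : ℝ)..(2 * π), u (x + y * I) ^ 2 := by
    intro x hx hx0
    have hc := hline x hx0
    have h1 : ∫ y in (0 : ℝ)..(2 * π), (2 * m * u (x + y * I) - m ^ 2)
        ≤ ∫ y in (0 : ℝ)..(2 * π), u (x + y * I) ^ 2 := by
      apply intervalIntegral.integral_mono_on hpi
      · exact (((continuous_const.mul hc).sub continuous_const)).intervalIntegrable _ _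
      · exact (hc.pow 2).intervalIntegrable _ _
      · intro y _
        nlinarith [sq_nonneg (u (x + y * I) - m)]
    have h2 : ∫ y in (0 : ℝ)..(2 * π), (2 * m * u (x + y * I) - m ^ 2)
        = 2 * m * (∫ y in (0 : ℝ)..(2 * π), u (x + y * I)) - m ^ 2 * (2 * π) := by
      have e1 : IntervalIntegrable (fun y : ℝ => 2 * m * u (x + y * I)) volume 0 (2 * π) :=
        (continuous_const.mul hc).intervalIntegrable _ _
      have e2 : IntervalIntegrable (fun _ : ℝ => m ^ 2) volume 0 (2 * π) :=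
        continuous_const.intervalIntegrable _ _
      rw [intervalIntegral.integral_sub e1 e2, intervalIntegral.integral_const_mul,
        intervalIntegral.integral_const]
      simp [mul_comm]
    have h3 : 2 * m * Φ ≤ 2 * m * (∫ y in (0 : ℝ)..(2 * π), u (x + y * I)) :=
      mul_le_mul_of_nonneg_left (hmono x hx hx0) (by positivity)
    have h4 : 2 * m * Φ - m ^ 2 * (2 * π) = Φ ^ 2 / (2 * π) := by
      rw [hm]; field_simp; ring
    linarith
  -- integrate over x
  have hmin : Continuous (fun x : ℝ => ∫ y in (0 : ℝ)..(2 * π),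
      u ((min x (a / 2) : ℝ) + y * I) ^ 2) := by
    apply intervalIntegral.continuous_parametric_intervalIntegral_of_continuous' (f := fun x y =>
      u ((min x (a / 2) : ℝ) + y * I) ^ 2)
    apply Continuous.pow
    apply huc.comp_continuous
    · apply Continuous.add
      · exact Complex.continuous_ofReal.comp (continuous_fst.min continuous_const)
      · exact (Complex.continuous_ofReal.comp continuous_snd).mul continuous_const
    · intro p
      show (((min p.1 (a / 2) : ℝ) : ℂ) + p.2 * I).re < 0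
      have : (((min p.1 (a / 2) : ℝ) : ℂ) + p.2 * I).re = min p.1 (a / 2) := by simp
      rw [this]
      exact lt_of_le_of_lt (min_le_right _ _) (by linarith)
  have hB : (a / 2 - a) * (Φ ^ 2 / (2 * π)) ≤ π := by
    refine le_trans ?_ hA
    have h5 : (∫ x in a..(a / 2), ∫ y in (0 : ℝ)..(2 * π), u (x + y * I) ^ 2)
        = ∫ x in a..(a / 2), ∫ y in (0 : ℝ)..(2 * π), u ((min x (a / 2) : ℝ) + y * I) ^ 2 := by
      apply intervalIntegral.integral_congr
      intro x hx
      rw [uIcc_of_le (by linarith)] at hx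
      simp only
      rw [min_eq_left hx.2]
    rw [h5]
    have h6 : ∫ _ in a..(a / 2), (Φ ^ 2 / (2 * π)) = (a / 2 - a) * (Φ ^ 2 / (2 * π)) := by
      rw [intervalIntegral.integral_const, smul_eq_mul]
    rw [← h6]
    apply intervalIntegral.integral_mono_on (by linarith) (continuous_const.intervalIntegrable _ _)
      (hmin.intervalIntegrable _ _)
    intro x hx
    have h7 : min x (a / 2) = x := min_eq_left hx.2
    rw [h7]
    exact hlow x hx.1 (lt_of_le_of_lt hx.2 (by linarith))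
  have hlog : a ≤ r - 1 := Real.log_le_sub_one_of_pos hr
  have h8 : (-a / 2) * (Φ ^ 2 / (2 * π)) ≤ π := by
    have : a / 2 - a = -a / 2 := by ring
    rwa [this] at hB
  have h9 : (1 - r) / 2 * (Φ ^ 2 / (2 * π)) ≤ π :=
    (mul_le_mul_of_nonneg_right (by linarith) (by positivity)).trans h8
  have h10 : (1 - r) / 2 * (Φ ^ 2 / (2 * π)) = Φ ^ 2 * (1 - r) / (4 * π) := by
    field_simp; ring
  rw [h10, div_le_iff₀ (by positivity)] at h9
  nlinarith

theorem hHalf (hImb : StImb) : StHalf := by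
  refine ⟨4 * π, ?_⟩
  intro g hg r hr hr1
  have h1r : 0 < 1 - r := by linarith
  have hIM0 : 0 ≤ IM g r :=
    intervalIntegral.integral_nonneg (by positivity) (fun t _ => norm_nonneg _)
  have hrp : (1 - r) ^ (-(1 / 2 : ℝ)) = (Real.sqrt (1 - r))⁻¹ := by
    rw [Real.rpow_neg h1r.le, ← Real.sqrt_eq_rpow]
  rw [hrp]
  have hs0 : 0 < Real.sqrt (1 - r) := Real.sqrt_pos.2 h1r
  have hss : Real.sqrt (1 - r) ^ 2 = 1 - r := Real.sq_sqrt h1r.le
  rw [← div_eq_mul_inv, le_div_iff₀ hs0]
  rcases le_or_gt (1 / 2) r with h | h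
  · have h2 := half_aux hg hr hr1
    rw [← hss, ← mul_pow] at h2
    have h3 : r * IM g r * Real.sqrt (1 - r) ≤ 2 * π :=
      abs_le_of_sq_le_sq' h2 (by positivity) |>.2
    have h4 : 0 ≤ IM g r * Real.sqrt (1 - r) := by positivity
    nlinarith
  · have h2 := hImb g r hg hr hr1
    rw [le_div_iff₀ h1r] at h2
    have h3 : Real.sqrt (1 - r) ≤ 2 * (1 - r) := by
      rw [Real.sqrt_le_left (by linarith)]
      nlinarith
    have h4 : IM g r * Real.sqrt (1 - r) ≤ IM g r * (2 * (1 - r)) :=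
      mul_le_mul_of_nonneg_left h3 hIM0
    linarith

end Pool.Agent.Helper13.LT
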