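import Pool.Agent.Helper69.LT.St
import Pool.Agent.Helper84.LE.BGR
import Pool.Agent.Helper84.LE.BWT
import Pool.Agent.Helper84.LE.M_Loc

/-! Project LT, module One: one directed edge in expectation. -/

set_option autoImplicit false

open scoped BigOperators
open Pool.LE

namespace Pool.LT

namespace OneM

variable {V : Type} [DecidableEq V]

/-! ### Expectations with values in an algebra -/

section Alg

variable {R : Type} [CommRing R] [Algebra ℝ R]

theorem Ex_mul_left' (E : Finset (Sym2 V)) (p : ℝ) (c : R) (f : Finset (Sym2 V) → R) :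
    Ex E p (fun ω => c * f ω) = c * Ex E p f := by
  unfold Ex
  rw [Finset.mul_sum]
  exact Finset.sum_congr rfl fun ω _ => (mul_smul_comm _ _ _).symm

theorem Ex_mul_right' (E : Finset (Sym2 V)) (p : ℝ) (c : R) (f : Finset (Sym2 V) → R) :
    Ex E p (fun ω => f ω * c) = Ex E p f * c := by
  unfold Ex
  rw [Finset.sum_mul]
  exact Finset.sum_congr rfl fun ω _ => (smul_mul_assoc _ _ _).symm

/-- independence of disjoint sets of edges, algebra valued -/
theorem Ex_mul_of_disjoint' {E₁ E₂ : Finset (Sym2 V)} (hd : Disjoint E₁ E₂) (p : ℝ)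
    (f g : Finset (Sym2 V) → R) :
    Ex (E₁ ∪ E₂) p (fun ω => f (ω ∩ E₁) * g (ω ∩ E₂)) = Ex E₁ p f * Ex E₂ p g := by
  induction E₁ using Finset.induction_on generalizing f with
  | empty =>
    have h1 : Ex (∅ : Finset (Sym2 V)) p f = f ∅ := by simp [Ex, wt]
    rw [Finset.empty_union, h1, ← Ex_mul_left']
    refine Ex_congr fun ω hω => ?_
    rw [Finset.inter_empty, Finset.inter_eq_left.2 hω]
  | insert e E he ih =>
    have hd' : Disjoint E E₂ := Finset.disjoint_of_subset_left (Finset.subset_insert _ _) hd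
    have he2 : e ∉ E₂ := fun h => (Finset.disjoint_left.1 hd) (Finset.mem_insert_self _ _) h
    have heU : e ∉ E ∪ E₂ := by simp [he, he2]
    rw [Finset.insert_union, sum_insert_wt heU, sum_insert_wt he]
    have h1 : Ex (E ∪ E₂) p (fun ω => f (ω ∩ insert e E) * g (ω ∩ E₂)) = Ex E p f * Ex E₂ p g := by
      rw [← ih hd' f]
      refine Ex_congr fun ω hω => ?_
      rw [Finset.inter_insert_of_notMem (fun h => heU (hω h))]
    have h2 : Ex (E ∪ E₂) p (fun ω => f ((insert e ω) ∩ insert e E) * g ((insert e ω) ∩ E₂)) =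
        Ex E p (fun ω => f (insert e ω)) * Ex E₂ p g := by
      rw [← ih hd' (fun ω => f (insert e ω))]
      refine Ex_congr fun ω hω => ?_
      rw [Finset.insert_inter_of_notMem he2, ← Finset.insert_inter_distrib]
    rw [h1, h2, add_mul, smul_mul_assoc, smul_mul_assoc]

end Alg

/-! ### Clusters -/

/-- the cluster of `v` -/
def clus (ω : Finset (Sym2 V)) (v : V) : Set V := {y | con ω v y}

theorem rst_insert {ω : Finset (Sym2 V)} {A : Set V} {e : Sym2 V}
    (h : ∃ y ∈ e, y ∈ A) : rst (insert e ω) A = rst ω A := by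
  obtain ⟨y, hy, hA⟩ := h
  ext f
  rw [mem_rst, mem_rst, Finset.mem_insert]
  constructor
  · rintro ⟨rfl | h1, h2⟩
    · exact absurd hA (h2 y hy)
    · exact ⟨h1, h2⟩
  · rintro ⟨h1, h2⟩
    exact ⟨Or.inr h1, h2⟩

section Weights

variable {R : Type} [CommRing R] (L : Finset V) (r : V → R)

theorem mA_rst (ω : Finset (Sym2 V)) (A : Set V) (a x : V) :
    mA L r (rst ω A) A a x = mA L r ω A a x := by
  unfold mA
  rw [rst_rst]

theorem mA_insert {ω : Finset (Sym2 V)} {A : Set V} {e : Sym2 V}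
    (h : ∃ y ∈ e, y ∈ A) (a x : V) : mA L r (insert e ω) A a x = mA L r ω A a x := by
  rw [← mA_rst L r (insert e ω), rst_insert h, mA_rst]

variable [Algebra ℝ R]

theorem GTA_insert {F : Finset (Sym2 V)} {p : ℝ} {A : Set V} {e : Sym2 V} (he : e ∉ F)
    (h : ∃ y ∈ e, y ∈ A) (a x : V) : GTA (insert e F) p L r A a x = GTA F p L r A a x := by
  unfold GTA
  rw [sum_insert_wt he]
  have h1 : Ex F p (fun ω => mA L r (insert e ω) A a x) = Ex F p (fun ω => mA L r ω A a x) :=
    Ex_congr fun ω _ => mA_insert L r h a x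
  rw [h1, ← add_smul, sub_add_cancel, one_smul]

/-- the conditional independence for one value of the cluster -/
theorem one_fixed (hLoc : SLoc) (F : Finset (Sym2 V)) (p : ℝ) (A T : Set V) (v u b x : V)
    [∀ η : Finset (Sym2 V), Decidable (clus η v = T)] :
    Ex F p (fun η => (if clus η v = T then vA L r η A v u else 0) * mA L r η T b x) =
      Ex F p (fun η => (if clus η v = T then vA L r η A v u else 0) * GTA F p L r T b x) := by
  classical
  obtain ⟨F₁, hF₁⟩ : ∃ F₁, F₁ = F.filter (fun e => ∃ y ∈ e, y ∈ T) := ⟨_, rfl⟩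
  obtain ⟨F₂, hF₂⟩ : ∃ F₂, F₂ = rst F T := ⟨_, rfl⟩
  have hm₁ : ∀ e, e ∈ F₁ ↔ e ∈ F ∧ ∃ y ∈ e, y ∈ T := by
    intro e; rw [hF₁]; exact Finset.mem_filter
  have hm₂ : ∀ e, e ∈ F₂ ↔ e ∈ F ∧ ∀ y ∈ e, y ∉ T := by
    intro e; rw [hF₂]; exact mem_rst
  have hdisj : Disjoint F₁ F₂ := by
    rw [Finset.disjoint_left]
    intro e h1 h2
    obtain ⟨-, y, hy, hT⟩ := (hm₁ e).1 h1
    exact ((hm₂ e).1 h2).2 y hy hT
  have hunion : F₁ ∪ F₂ = F := by
    ext e
    rw [Finset.mem_union, hm₁, hm₂]
    constructor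
    · rintro (h | h)
      · exact h.1
      · exact h.1
    · intro h
      by_cases h' : ∃ y ∈ e, y ∈ T
      · exact Or.inl ⟨h, h'⟩
      · exact Or.inr ⟨h, fun y hy hT => h' ⟨y, hy, hT⟩⟩
  obtain ⟨φ, hφ⟩ : ∃ φ : Finset (Sym2 V) → R,
      φ = fun η => if clus η v = T then vA L r η A v u else 0 := ⟨_, rfl⟩
  obtain ⟨ψ, hψ⟩ : ∃ ψ : Finset (Sym2 V) → R, ψ = fun η => mA L r η T b x := ⟨_, rfl⟩
  have h1 : ∀ η ⊆ F, φ η = φ (η ∩ F₁) := by
    intro η hη
    have key : LocH η (η ∩ F₁) v ∨ (clus η v ≠ T ∧ clus (η ∩ F₁) v ≠ T) := by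
      by_cases hT : clus η v = T
      · left
        rintro f ⟨y, hy, hc⟩
        rw [Finset.mem_inter, hm₁]
        have hyT : y ∈ T := by rw [← hT]; exact hc
        exact ⟨fun h => ⟨h, hη h, y, hy, hyT⟩, fun h => h.1⟩
      · by_cases hT' : clus (η ∩ F₁) v = T
        · left
          apply LocH.symm
          rintro f ⟨y, hy, hc⟩
          rw [Finset.mem_inter, hm₁]
          have hyT : y ∈ T := by rw [← hT']; exact hc
          exact ⟨fun h => h.1, fun h => ⟨h, hη h, y, hy, hyT⟩⟩
        · exact Or.inr ⟨hT, hT'⟩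
    rw [hφ]
    dsimp only
    rcases key with key | ⟨k1, k2⟩
    · have hcl : clus η v = clus (η ∩ F₁) v := by
        ext y
        exact key.con y
      by_cases hT : clus η v = T
      · rw [if_pos hT, if_pos (hcl.symm.trans hT), (hLoc V R L r η (η ∩ F₁) v key A u).2.2]
      · rw [if_neg hT, if_neg (fun h => hT (hcl.trans h))]
    · rw [if_neg k1, if_neg k2]
  have h2 : ∀ η ⊆ F, ψ η = ψ (η ∩ F₂) := by
    intro η hη
    rw [hψ]
    dsimp only
    rw [← mA_rst L r η, ← mA_rst L r (η ∩ F₂)]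
    have : rst η T = rst (η ∩ F₂) T := by
      ext e
      rw [mem_rst, mem_rst, Finset.mem_inter, hm₂]
      exact ⟨fun h => ⟨⟨h.1, hη h.1, h.2⟩, h.2⟩, fun h => ⟨h.1.1, h.2⟩⟩
    rw [this]
  have hGA : GTA F p L r T b x = Ex F₂ p ψ := by
    unfold GTA
    rw [← Ex_inter (E := F) (F := F₂) (by rw [hF₂]; exact rst_subset _ _) p ψ]
    refine Ex_congr fun η hη => ?_
    rw [← h2 η hη, hψ]
  have hφE : Ex F p φ = Ex F₁ p φ := by
    rw [← Ex_inter (E := F) (F := F₁) (by rw [hF₁]; exact Finset.filter_subset _ _) p φ]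
    exact Ex_congr fun η hη => h1 η hη
  have e1 : Ex F p (fun η => (if clus η v = T then vA L r η A v u else 0) * mA L r η T b x) =
      Ex F₁ p φ * Ex F₂ p ψ := by
    rw [← Ex_mul_of_disjoint' hdisj, hunion]
    refine Ex_congr fun η hη => ?_
    rw [← h1 η hη, ← h2 η hη, hφ, hψ]
  have e2 : Ex F p (fun η => (if clus η v = T then vA L r η A v u else 0) * GTA F p L r T b x) =
      Ex F₁ p φ * Ex F₂ p ψ := by
    rw [Ex_mul_right', ← hφE, hGA, hφ]
  rw [e1, e2]

theorem one_all (hLoc : SLoc) (F : Finset (Sym2 V)) (p : ℝ) (A : Set V) (v u b x : V) :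
    Ex F p (fun η => vA L r η A v u * mA L r η (clus η v) b x) =
      Ex F p (fun η => vA L r η A v u * GTA F p L r (clus η v) b x) := by
  classical
  have h1 : ∀ g : Finset (Sym2 V) → Set V → R,
      Ex F p (fun η => vA L r η A v u * g η (clus η v)) =
        ∑ T ∈ F.powerset.image (fun η => clus η v),
          Ex F p (fun η => (if clus η v = T then vA L r η A v u else 0) * g η T) := by
    intro g
    have h2 : Ex F p (fun η => ∑ T ∈ F.powerset.image (fun η => clus η v),
        (if clus η v = T then vA L r η A v u else 0) * g η T) =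
        ∑ T ∈ F.powerset.image (fun η => clus η v),
          Ex F p (fun η => (if clus η v = T then vA L r η A v u else 0) * g η T) := by
      unfold Ex
      rw [Finset.sum_comm]
      exact Finset.sum_congr rfl fun ω _ => Finset.smul_sum
    rw [← h2]
    refine Ex_congr fun η hη => ?_
    rw [Finset.sum_eq_single (clus η v)]
    · rw [if_pos rfl]
    · intro T _ hT
      rw [if_neg (fun h => hT h.symm), zero_mul]
    · intro h
      exact absurd (Finset.mem_image_of_mem _ (Finset.mem_powerset.2 hη)) h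
  rw [h1 (fun η T => mA L r η T b x), h1 (fun _ T => GTA F p L r T b x)]
  exact Finset.sum_congr rfl fun T _ => one_fixed L r hLoc F p A T v u b x

end Weights

end OneM

open OneM in
theorem hOne : SVan → SLoc → SOne := by
  classical
  intro hVan hLoc V _ R _ _ L r E p A v x u b hE
  obtain ⟨F, hF⟩ : ∃ F, F = E.erase s(u, b) := ⟨_, rfl⟩
  have heF : s(u, b) ∉ F := by rw [hF]; exact Finset.notMem_erase _ _
  have hEF : E = insert s(u, b) F := by rw [hF, Finset.insert_erase hE]
  have her0 : ∀ η ⊆ F, η.erase s(u, b) = η := by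
    intro η hη
    rw [Finset.erase_eq_of_notMem (fun h => heF (hη h))]
  have her : ∀ η ⊆ F, (insert s(u, b) η).erase s(u, b) = η := by
    intro η hη
    rw [Finset.erase_insert (fun h => heF (hη h))]
  have hcl : ∀ η ⊆ F, cl η u b v = clus η v := by
    intro η hη
    unfold cl clus
    rw [her0 η hη]
  have hcl' : ∀ η ⊆ F, cl (insert s(u, b) η) u b v = clus η v := by
    intro η hη
    unfold cl clus
    rw [her η hη]
  have htch : ∀ η : Finset (Sym2 V), con η v u → ∃ y ∈ s(u, b), y ∈ clus η v :=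
    fun η hu => ⟨u, Sym2.mem_mk_left u b, hu⟩
  have hv0 : ∀ η : Finset (Sym2 V), ¬ con η v u → vA L r η A v u = 0 :=
    fun η hu => ((hVan V R L r η A v u).1 hu).2.2
  -- left side
  have hL : Ex E p (fun ω => if s(u, b) ∈ ω then
        vA L r (ω.erase s(u, b)) A v u * mA L r ω (cl ω u b v) b x else 0) =
      p • Ex F p (fun η => vA L r η A v u * mA L r η (clus η v) b x) := by
    rw [hEF, sum_insert_wt heF]
    have h1 : Ex F p (fun ω => if s(u, b) ∈ ω then
        vA L r (ω.erase s(u, b)) A v u * mA L r ω (cl ω u b v) b x else 0) = 0 := by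
      refine (Ex_congr (g := fun _ => 0) fun η hη => if_neg (fun h => heF (hη h))).trans ?_
      exact Ex_zero F p
    rw [h1, smul_zero, zero_add]
    congr 1
    refine Ex_congr fun η hη => ?_
    rw [if_pos (Finset.mem_insert_self _ _), hcl' η hη, her η hη]
    by_cases hu : con η v u
    · rw [mA_insert L r (htch η hu)]
    · rw [hv0 η hu, zero_mul, zero_mul]
  -- right side
  have hR0 : ∀ η ⊆ F, vA L r η A v u * GTA E p L r (clus η v) b x =
      vA L r η A v u * GTA F p L r (clus η v) b x := by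
    intro η hη
    by_cases hu : con η v u
    · rw [hEF, GTA_insert L r heF (htch η hu)]
    · rw [hv0 η hu, zero_mul, zero_mul]
  have hR : Ex E p (fun ω => vA L r (ω.erase s(u, b)) A v u *
        GTA E p L r (cl ω u b v) b x) =
      Ex F p (fun η => vA L r η A v u * GTA F p L r (clus η v) b x) := by
    conv_lhs => rw [hEF]
    rw [sum_insert_wt heF, ← hEF]
    have h1 : Ex F p (fun ω => vA L r (ω.erase s(u, b)) A v u * GTA E p L r (cl ω u b v) b x) =
        Ex F p (fun η => vA L r η A v u * GTA F p L r (clus η v) b x) :=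
      Ex_congr fun η hη => by rw [hcl η hη, her0 η hη, hR0 η hη]
    have h2 : Ex F p (fun ω => vA L r ((insert s(u, b) ω).erase s(u, b)) A v u *
        GTA E p L r (cl (insert s(u, b) ω) u b v) b x) =
        Ex F p (fun η => vA L r η A v u * GTA F p L r (clus η v) b x) :=
      Ex_congr fun η hη => by rw [hcl' η hη, her η hη, hR0 η hη]
    rw [h1, h2, ← add_smul, sub_add_cancel, one_smul]
  rw [hL, hR, one_all L r hLoc]

end Pool.LT
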